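import Mathlib
import Pool.Agent.Lib.helper23.QgA

namespace Pool.Agent.Results.MP_4bd73f_an.LorentzEmbed

open Filter Topology Pool.Agent.Lib.helper23.QgA

variable {𝕜 X : Type} [RCLike 𝕜] [NormedAddCommGroup X] [NormedSpace 𝕜 X]

/-- Bounded total biorthogonal system with dense span. -/
def IsBasis (x : ℕ → X) (x' : ℕ → X →L[𝕜] 𝕜) : Prop :=
  Dense (Submodule.span 𝕜 (Set.range x) : Set X) ∧
  (∀ n k, x' n (x k) = if n = k then 1 else 0) ∧
  (∀ f, (∀ n, x' n f = 0) → f = 0) ∧ ∃ K : ℝ, ∀ n, ‖x n‖ ≤ K ∧ ‖x' n‖ ≤ K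

/-- Greedy sums are uniformly bounded. -/
def QuasiGreedy (x : ℕ → X) (x' : ℕ → X →L[𝕜] 𝕜) : Prop :=
  ∃ C : ℝ, ∀ (f : X) (A : Finset ℕ), (∀ n ∈ A, ∀ k ∉ A, ‖x' k f‖ ≤ ‖x' n f‖) →
    ‖∑ n ∈ A, x' n f • x n‖ ≤ C * ‖f‖

/-- Isomorphic to a uniformly convex Banach space. -/
def Superreflexive (𝕜 X : Type) [RCLike 𝕜] [NormedAddCommGroup X] [NormedSpace 𝕜 X] : Prop :=
  ∃ (Y : Type) (_ : NormedAddCommGroup Y) (_ : NormedSpace 𝕜 Y),
    CompleteSpace Y ∧ UniformConvexSpace Y ∧ Nonempty (X ≃L[𝕜] Y)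

/-- Lower democracy function. -/
noncomputable def phi (𝕜 : Type) {X : Type} [RCLike 𝕜] [NormedAddCommGroup X] [NormedSpace 𝕜 X]
    (x : ℕ → X) (m : ℕ) : ℝ :=
  sInf {t | ∃ (A : Finset ℕ) (ε : ℕ → 𝕜), m ≤ A.card ∧ (∀ n, ‖ε n‖ = 1) ∧ t = ‖∑ n ∈ A, ε n • x n‖}

/-- `rearr a m` is the `(m+1)`-st term of the nonincreasing rearrangement of `|a|`. -/
noncomputable def rearr (a : ℕ → 𝕜) (m : ℕ) : ℝ :=
  sInf {t : ℝ | 0 ≤ t ∧ {n | t < ‖a n‖}.encard ≤ m}

/-- The `(m+1)`-st term of the series defining the `r`-th power of the Lorentz norm. -/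
noncomputable def term (x : ℕ → X) (a : ℕ → 𝕜) (r : ℝ) (m : ℕ) : ℝ :=
  rearr a m ^ r * phi 𝕜 x (m + 1) ^ (r - 1) * (phi 𝕜 x (m + 1) - phi 𝕜 x m)

theorem phi_bdd (x : ℕ → X) (m : ℕ) : BddBelow {t | ∃ (A : Finset ℕ) (ε : ℕ → 𝕜),
    m ≤ A.card ∧ (∀ n, ‖ε n‖ = 1) ∧ t = ‖∑ n ∈ A, ε n • x n‖} :=
  ⟨0, by rintro _ ⟨A, ε, -, -, rfl⟩; exact norm_nonneg _⟩

theorem phi_nonneg (x : ℕ → X) (m : ℕ) : 0 ≤ phi 𝕜 x m :=
  Real.sInf_nonneg (by rintro _ ⟨A, ε, -, -, rfl⟩; exact norm_nonneg _)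

theorem phi_mono (x : ℕ → X) : Monotone (phi 𝕜 x) := fun a b h =>
  csInf_le_csInf (phi_bdd x a) ⟨_, Finset.range b, fun _ => 1, by simp, by simp, rfl⟩
    fun _ ⟨A, ε, h1, h2⟩ => ⟨A, ε, h.trans h1, h2⟩

theorem finite_lev {x : ℕ → X} {x' : ℕ → X →L[𝕜] 𝕜} (hB : IsBasis x x') (f : X) (t : ℝ)
    (ht : 0 < t) : {n | t < ‖x' n f‖}.Finite := by
  obtain ⟨hd, hb, -, K, hK⟩ := hB
  have K0 : 0 ≤ K := (norm_nonneg _).trans (hK 0).1
  obtain ⟨y, hy, hy'⟩ := Metric.mem_closure_iff.1 (hd f) (t / (K + 1)) (by positivity)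
  obtain ⟨c, rfl⟩ := Finsupp.mem_span_range_iff_exists_finsupp.1 hy
  refine c.support.finite_toSet.subset fun n hn => ?_
  by_contra h
  have h0 : x' n (c.sum fun i a => a • x i) = 0 := by
    rw [Finsupp.sum, map_sum]
    refine Finset.sum_eq_zero fun i hi => ?_
    rw [map_smul, hb, if_neg, smul_zero]
    rintro rfl; exact h hi
  have h1 := (x' n).le_of_opNorm_le (hK n).2 (f - c.sum fun i a => a • x i)
  rw [map_sub, h0, sub_zero, ← dist_eq_norm] at h1
  rw [lt_div_iff₀ (by positivity)] at hy'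
  have h2 : t < ‖x' n f‖ := hn
  nlinarith [dist_nonneg (x := f) (y := c.sum fun i a => a • x i)]

theorem result (𝕜 X : Type) [RCLike 𝕜] [NormedAddCommGroup X] [NormedSpace 𝕜 X] [CompleteSpace X]
    (x : ℕ → X) (x' : ℕ → X →L[𝕜] 𝕜) (hB : IsBasis x x') (hQ : QuasiGreedy x x')
    (hS : Superreflexive 𝕜 X) :
    ∃ r : ℝ, 1 ≤ r ∧ ∃ C : ℝ, ∀ f : X, Summable (term x (fun n => x' n f) r) ∧
      (∑' m, term x (fun n => x' n f) r m) ^ (1 / r) ≤ C * ‖f‖ := by
  classical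
  have hU : Avg X := by
    obtain ⟨Y, _, _, _, _, ⟨T⟩⟩ := hS
    let : NormedSpace ℝ Y := NormedSpace.restrictScalars ℝ 𝕜 Y
    exact avg_equiv T (avg_uc Y)
  have fin := finite_lev hB
  obtain ⟨-, hb, tot, K0, hK0⟩ := hB
  obtain ⟨C0, hC0⟩ := hQ
  set C := max C0 1
  set K := max K0 1
  have Cp : 0 < C := lt_max_of_lt_right one_pos
  have Kp : 0 < K := lt_max_of_lt_right one_pos
  let A : ℝ → X → Finset ℕ := fun t f =>
    if h : {n | t < ‖x' n f‖}.Finite then h.toFinset else ∅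
  have hA : ∀ t, 0 < t → ∀ f n, n ∈ A t f ↔ t < ‖x' n f‖ := fun t ht f n => by
    simp only [A, dif_pos (fin f t ht), Set.Finite.mem_toFinset, Set.mem_ofPred_eq]
  have co : ∀ (B : Finset ℕ) (c : ℕ → 𝕜) m, x' m (∑ n ∈ B, c n • x n) = if m ∈ B then c m else 0 := by
    intro B c m
    simp only [map_sum, map_smul, hb, smul_eq_mul, mul_ite, mul_one, mul_zero]
    rw [Finset.sum_ite_eq]
  let G : ℝ → X → X := fun t f => ∑ n ∈ A t f, x' n f • x n
  have hG : ∀ t, 0 < t → ∀ f m, x' m (G t f) = if t < ‖x' m f‖ then x' m f else 0 := by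
    intro t ht f m
    simp only [G, co, hA t ht]
  have hC : ∀ t, 0 < t → ∀ f, ‖G t f‖ ≤ C * ‖f‖ := fun t ht f =>
    (hC0 f _ fun n hn k hk => by
      rw [hA t ht] at hn hk; linarith [not_lt.1 hk]).trans
      (mul_le_mul_of_nonneg_right (le_max_left _ _) (norm_nonneg _))
  obtain ⟨r, W, W0, hW⟩ := sum_pow hU Cp hG hC tot
  have main : ∀ f : X, ∀ M, ∑ m ∈ Finset.range M, term x (fun n => x' n f) (r + 1 : ℕ) m ≤
      (4 * (1 + C)) ^ (r + 1) * W * ‖f‖ ^ (r + 1) := by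
    intro f M
    have ht : ∀ m, term x (fun n => x' n f) (r + 1 : ℕ) m = rearr (fun n => x' n f) m ^ (r + 1) *
        phi 𝕜 x (m + 1) ^ r * (phi 𝕜 x (m + 1) - phi 𝕜 x m) := fun m => by
      rw [term, Real.rpow_natCast, Nat.cast_add_one, add_sub_cancel_right, Real.rpow_natCast]
    have hw : ∀ m, 0 ≤ phi 𝕜 x (m + 1) - phi 𝕜 x m := fun m =>
      sub_nonneg.2 (phi_mono x m.le_succ)
    have r0 : ∀ m, 0 ≤ rearr (fun n => x' n f) m := fun m => Real.sInf_nonneg fun _ h => h.1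
    have rle : ∀ (m : ℕ) (t : ℝ), 0 ≤ t → {n | t < ‖x' n f‖}.encard ≤ m → rearr (fun n => x' n f) m ≤ t :=
      fun m t h1 h2 => csInf_le ⟨0, fun _ h => h.1⟩ ⟨h1, h2⟩
    have hD : ∀ n, ‖x' n f‖ ≤ K * ‖f‖ := fun n =>
      (x' n).le_of_opNorm_le ((hK0 n).2.trans (le_max_left _ _)) f
    have rD : ∀ m, rearr (fun n => x' n f) m ≤ K * ‖f‖ := fun m => rle m _ (by positivity) (by
      have : {n | K * ‖f‖ < ‖x' n f‖} = ∅ :=
        Set.eq_empty_of_forall_notMem fun n hn => absurd (hD n) (not_le.2 hn)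
      rw [this]; simp)
    rcases eq_or_ne f 0 with rfl | hf
    · refine (Finset.sum_eq_zero fun m _ => ?_).trans_le (by positivity)
      rw [ht, le_antisymm ((rD m).trans_eq (by simp)) (r0 m)]; simp
    set D := K * ‖f‖ with hDdef
    have D0 : 0 < D := mul_pos Kp (norm_pos_iff.2 hf)
    let ε : ℕ → 𝕜 := fun n => if x' n f = 0 then 1 else ((‖x' n f‖⁻¹ : ℝ) : 𝕜) * x' n f
    have hε : ∀ n, ‖ε n‖ = 1 := fun n => by
      simp only [ε]; split_ifs with h
      · exact norm_one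
      · rw [norm_mul, RCLike.norm_ofReal, abs_inv, abs_norm, inv_mul_cancel₀ (norm_ne_zero_iff.2 h)]
    let v : ℕ → ℝ := fun k => D / 2 ^ k * ‖∑ n ∈ A (D / 2 ^ k) f, ε n • x n‖
    have v0 : ∀ k, 0 ≤ v k := fun k => by positivity
    have vz : v 0 = 0 := by
      have : A (D / 2 ^ 0) f = ∅ := Finset.eq_empty_of_forall_notMem fun n hn => by
        rw [hA _ (by positivity), pow_zero, div_one] at hn
        exact absurd (hD n) (not_le.2 hn)
      simp only [v, this]; simp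
    let u : ℕ → ℝ := fun k => ‖G (D / 2 ^ (k + 1)) f - G (D / 2 ^ k) f‖
    have vrec : ∀ k, v (k + 1) ≤ v k / 2 + (1 + C) * u k := by
      intro k
      have t0 : 0 < D / 2 ^ (k + 1) := by positivity
      have t1 : 0 < D / 2 ^ k := by positivity
      have t2 : D / 2 ^ (k + 1) = D / 2 ^ k / 2 := by rw [pow_succ, div_div]
      have sub : A (D / 2 ^ k) f ⊆ A (D / 2 ^ (k + 1)) f := fun n hn => by
        rw [hA _ t1] at hn; rw [hA _ t0]; linarith
      set B := A (D / 2 ^ (k + 1)) f \ A (D / 2 ^ k) f with hBdef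
      have hB : ∀ n, n ∈ B ↔ D / 2 ^ (k + 1) < ‖x' n f‖ ∧ ¬ D / 2 ^ k < ‖x' n f‖ := fun n => by
        rw [hBdef, Finset.mem_sdiff, hA _ t0, hA _ t1]
      set h := G (D / 2 ^ (k + 1)) f - G (D / 2 ^ k) f with hh
      have hc : ∀ m, x' m h = if m ∈ B then x' m f else 0 := fun m => by
        rw [hh, ← co B (fun n => x' n f), hBdef, Finset.sum_sdiff_eq_sub sub]
      have h1 := layer (𝕜 := 𝕜) (fun n => x' n f • x n) ((1 + C) * ‖h‖) (by positivity) _ B
        (fun n => D / 2 ^ (k + 1) / ‖x' n f‖) 1 rfl zero_le_one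
        (fun n hn => ⟨by positivity, div_le_one_of_le₀ ((hB n).1 hn).1.le (norm_nonneg _)⟩)
        (fun s hs => by
          have e : ∑ i ∈ B.filter (fun i => s ≤ D / 2 ^ (k + 1) / ‖x' i f‖), x' i f • x i =
              h - G (D / 2 ^ (k + 1) / s) h := by
            refine sub_eq_zero.1 (tot _ fun m => ?_)
            rw [map_sub, map_sub, co _ (fun n => x' n f), hG _ (by positivity), hc]
            by_cases h1 : m ∈ B
            · have h2 : 0 < ‖x' m f‖ := t0.trans ((hB m).1 h1).1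
              simp only [Finset.mem_filter, h1, true_and, if_true]
              simp only [le_div_iff₀ h2, div_lt_iff₀' hs]
              by_cases h3 : s * ‖x' m f‖ ≤ D / 2 ^ (k + 1)
              · rw [if_pos h3, if_neg (not_lt.2 h3)]; simp
              · rw [if_neg h3, if_pos (not_le.1 h3)]; simp
            · simp [h1]
          rw [e]
          have := hC (D / 2 ^ (k + 1) / s) (by positivity) h
          linarith [norm_sub_le h (G (D / 2 ^ (k + 1) / s) h)])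
      have e2 : ∑ i ∈ B, ((D / 2 ^ (k + 1) / ‖x' i f‖ : ℝ) : 𝕜) • x' i f • x i =
          ((D / 2 ^ (k + 1) : ℝ) : 𝕜) • ∑ i ∈ B, ε i • x i := by
        rw [Finset.smul_sum]
        refine Finset.sum_congr rfl fun i hi => ?_
        have h2 : x' i f ≠ 0 := norm_pos_iff.1 (t0.trans ((hB i).1 hi).1)
        simp only [ε, if_neg h2, smul_smul]
        rw [div_eq_mul_inv (D / 2 ^ (k + 1)), RCLike.ofReal_mul, mul_assoc]
      rw [e2, norm_smul, RCLike.norm_ofReal, abs_of_pos t0, one_mul] at h1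
      have h2 := norm_add_le (∑ i ∈ B, ε i • x i) (∑ n ∈ A (D / 2 ^ k) f, ε n • x n)
      rw [hBdef, Finset.sum_sdiff sub, ← hBdef] at h2
      have h3 := mul_le_mul_of_nonneg_left h2 t0.le
      simp only [v, u]
      rw [mul_add] at h3
      rw [← hh]
      have h4 : D / 2 ^ (k + 1) * ‖∑ n ∈ A (D / 2 ^ k) f, ε n • x n‖ =
          D / 2 ^ k * ‖∑ n ∈ A (D / 2 ^ k) f, ε n • x n‖ / 2 := by rw [t2]; ring
      linarith
    have vsum : ∀ J, ∑ k ∈ Finset.range J, v (k + 1) ^ (r + 1) ≤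
        (2 * (1 + C)) ^ (r + 1) * (W * ‖f‖ ^ (r + 1)) := by
      intro J
      have h1 : ∀ k, v (k + 1) ^ (r + 1) ≤
          v k ^ (r + 1) / 2 + (2 * (1 + C)) ^ (r + 1) * u k ^ (r + 1) / 2 := fun k => by
        have a := pow_le_pow_left₀ (v0 _) (vrec k) (r + 1)
        have b := add_pow_le (v0 k) (show 0 ≤ 2 * (1 + C) * u k by positivity) (r + 1)
        rw [show v k / 2 + (1 + C) * u k = (v k + 2 * (1 + C) * u k) / 2 by ring, div_pow] at a
        rw [Nat.add_sub_cancel, mul_pow (2 * (1 + C))] at b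
        refine a.trans ?_
        rw [div_le_iff₀ (by positivity), pow_succ 2]
        linarith
      have h2 := Finset.sum_le_sum (s := Finset.range J) fun k _ => h1 k
      rw [Finset.sum_add_distrib, ← Finset.sum_div, ← Finset.sum_div, ← Finset.mul_sum] at h2
      have h3 := Finset.sum_range_succ' (fun k => v k ^ (r + 1)) J
      rw [Finset.sum_range_succ, vz, zero_pow (by omega), add_zero] at h3
      have h4 := mul_le_mul_of_nonneg_left (hW f D hf D0 J)
        (show 0 ≤ (2 * (1 + C)) ^ (r + 1) by positivity)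
      have h5 : 0 ≤ v J ^ (r + 1) := pow_nonneg (v0 J) _
      simp only [u] at h2
      linarith
    refine dyadic_sum _ (rearr fun n => x' n f) _ D D0 (fun k => 2 ^ (r + 1) * v (k + 1) ^ (r + 1))
      _ (fun m _ => ⟨r0 m, rD m⟩)
      (fun m _ => by
        rw [ht]
        exact mul_nonneg (mul_nonneg (pow_nonneg (r0 m) _) (pow_nonneg (phi_nonneg x _) _)) (hw m))
      (fun m _ h => by rw [ht, h]; simp) (fun k => ?_) fun J => ?_
    · have t0 : 0 < D / 2 ^ (k + 1) := by positivity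
      set N := (A (D / 2 ^ (k + 1)) f).card with hN
      have p0 := phi_nonneg (𝕜 := 𝕜) x N
      have h1 : ∀ m, D / 2 ^ (k + 1) < rearr (fun n => x' n f) m → m < N := fun m hm => by
        by_contra h
        refine absurd (rle m _ t0.le ?_) (not_le.2 hm)
        have : {n | D / 2 ^ (k + 1) < ‖x' n f‖} = (A (D / 2 ^ (k + 1)) f : Set ℕ) :=
          Set.ext fun n => (hA _ t0 f n).symm
        rw [this, Set.encard_coe_eq_coe_finsetCard]
        exact Nat.cast_le.2 (not_lt.1 h)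
      have h2 : phi 𝕜 x N ≤ ‖∑ n ∈ A (D / 2 ^ (k + 1)) f, ε n • x n‖ :=
        csInf_le (phi_bdd x N) ⟨_, ε, le_rfl, hε, rfl⟩
      calc _ ≤ ∑ m ∈ (Finset.range M).filter (fun i => D / 2 ^ (k + 1) < rearr (fun n => x' n f) i ∧
              rearr (fun n => x' n f) i ≤ D / 2 ^ k),
            (D / 2 ^ k) ^ (r + 1) * phi 𝕜 x N ^ r * (phi 𝕜 x (m + 1) - phi 𝕜 x m) := by
            refine Finset.sum_le_sum fun m hm => ?_
            obtain ⟨-, a, b⟩ := Finset.mem_filter.1 hm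
            rw [ht]
            refine mul_le_mul_of_nonneg_right (mul_le_mul (pow_le_pow_left₀ (r0 m) b _)
              (pow_le_pow_left₀ (phi_nonneg x _) (phi_mono x (h1 m a)) _)
              (pow_nonneg (phi_nonneg x _) _) (by positivity)) (hw m)
        _ ≤ ∑ m ∈ Finset.range N,
            (D / 2 ^ k) ^ (r + 1) * phi 𝕜 x N ^ r * (phi 𝕜 x (m + 1) - phi 𝕜 x m) :=
            Finset.sum_le_sum_of_subset_of_nonneg
              (fun m hm => Finset.mem_range.2 (h1 m (Finset.mem_filter.1 hm).2.1))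
              fun m _ _ => mul_nonneg (by positivity) (hw m)
        _ ≤ (D / 2 ^ k) ^ (r + 1) * phi 𝕜 x N ^ r * phi 𝕜 x N := by
            rw [← Finset.mul_sum, Finset.sum_range_sub]
            exact mul_le_mul_of_nonneg_left (sub_le_self _ (phi_nonneg x 0)) (by positivity)
        _ ≤ _ := by
            rw [mul_assoc, ← pow_succ, ← mul_pow, ← mul_pow]
            refine pow_le_pow_left₀ (by positivity) ?_ _
            have := mul_le_mul_of_nonneg_left h2 t0.le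
            simp only [v]
            rw [show D / 2 ^ k = 2 * (D / 2 ^ (k + 1)) by rw [pow_succ]; field_simp]
            linarith
    · rw [← Finset.mul_sum]
      refine (mul_le_mul_of_nonneg_left (vsum J) (by positivity)).trans_eq ?_
      rw [← mul_assoc, ← mul_pow]; ring
  refine ⟨(r + 1 : ℕ), by exact_mod_cast Nat.succ_pos r,
    ((4 * (1 + C)) ^ (r + 1) * W) ^ (1 / ((r + 1 : ℕ) : ℝ)), fun f => ?_⟩
  have t0 : ∀ m, 0 ≤ term x (fun n => x' n f) (r + 1 : ℕ) m := fun m =>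
    mul_nonneg (mul_nonneg (Real.rpow_nonneg (Real.sInf_nonneg fun _ h => h.1) _)
      (Real.rpow_nonneg (phi_nonneg x _) _)) (sub_nonneg.2 (phi_mono x m.le_succ))
  refine ⟨summable_of_sum_range_le t0 (main f), ?_⟩
  refine (Real.rpow_le_rpow (tsum_nonneg t0) (Real.tsum_le_of_sum_range_le t0 (main f))
    (by positivity)).trans_eq ?_
  rw [Real.mul_rpow (by positivity) (by positivity), one_div,
    Real.pow_rpow_inv_natCast (norm_nonneg _) (by omega)]

end Pool.Agent.Results.MP_4bd73f_an.LorentzEmbed
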